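import Mathlib
import Pool.Agent.T2H76.NB.C

/-!
# A function in `A^∞(B)` with natural boundary on every affine disc

For every `n > 1` there is a function, holomorphic in the unit ball `B` of `ℂⁿ`, all of whose
derivatives extend continuously to the closed ball, and whose restriction to every affine disc with
boundary in the unit sphere has the unit circle as its natural boundary.
-/

set_option autoImplicit false

open Filter Topology Set Metric

namespace Pool.Agent.Results.MP_ca9574_an.NaturalBoundaryDiscs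

/-- `f` belongs to `A^∞(B)`: it is holomorphic in the open unit ball, continuous on the closed
unit ball, and for each `m` its derivative of order `m` (the multilinear map whose entries are the
partial derivatives of order `m`) extends continuously from the open to the closed ball. -/
def IsAInfty {n : ℕ} (f : EuclideanSpace ℂ (Fin n) → ℂ) : Prop :=
  DifferentiableOn ℂ f (ball 0 1) ∧ ContinuousOn f (closedBall 0 1) ∧
    ∀ m : ℕ, ∃ g : EuclideanSpace ℂ (Fin n) →
        ContinuousMultilinearMap ℂ (fun _ : Fin m => EuclideanSpace ℂ (Fin n)) ℂ,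
      ContinuousOn g (closedBall 0 1) ∧
        ∀ z ∈ ball (0 : EuclideanSpace ℂ (Fin n)) 1, g z = iteratedFDeriv ℂ m f z

/-- the function `g` on the unit disc has the unit circle as its natural boundary: no point of the
circle has an open disc around it, or containing it, on which some holomorphic function coincides
with `g` inside the unit disc -/
def HasNaturalBoundary (g : ℂ → ℂ) : Prop :=
  ∀ τ : ℂ, ‖τ‖ = 1 → ¬ ∃ (c : ℂ) (R : ℝ) (h : ℂ → ℂ), τ ∈ ball c R ∧
    DifferentiableOn ℂ h (ball c R) ∧ ∀ x ∈ ball c R, ‖x‖ < 1 → h x = g x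

/-- property (NB): for each nonconstant affine map `x ↦ a + x b` taking the unit circle into the
unit sphere, `f (a + x b)` has the unit circle as its natural boundary -/
def HasNB {n : ℕ} (f : EuclideanSpace ℂ (Fin n) → ℂ) : Prop :=
  ∀ a b : EuclideanSpace ℂ (Fin n), b ≠ 0 → (∀ x : ℂ, ‖x‖ = 1 → ‖a + x • b‖ = 1) →
    HasNaturalBoundary fun x => f (a + x • b)

open Pool.Agent.T2H76.NB

/-- **Theorem.** For every `n > 1` there is `f ∈ A^∞(B)` with property (NB). -/
theorem result (n : ℕ) (hn : 1 < n) :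
    ∃ f : EuclideanSpace ℂ (Fin n) → ℂ, IsAInfty f ∧ HasNB f := by
  have hne : Nonempty (sphere (0 : EuclideanSpace ℂ (Fin n)) 1) := by
    refine ⟨⟨EuclideanSpace.single ⟨0, by omega⟩ 1, ?_⟩⟩
    rw [mem_sphere_zero_iff_norm]
    simp
  let d : ℕ → sphere (0 : EuclideanSpace ℂ (Fin n)) 1 := TopologicalSpace.denseSeq _
  let M : ℕ → ℕ := fun i => (Nat.unpair i).1 + 2
  let q : ℕ → EuclideanSpace ℂ (Fin n) := fun i => (d (Nat.unpair i).2 : EuclideanSpace ℂ (Fin n))
  have hM : ∀ i, 1 ≤ M i := fun i => by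
    simp only [M]
    omega
  have hq : ∀ i, ‖q i‖ = 1 := fun i => mem_sphere_zero_iff_norm.1 (d (Nat.unpair i).2).2
  obtain ⟨k, hk0, hk1, hk2⟩ := exists_seq M hM
  have hdense : ∀ p : EuclideanSpace ℂ (Fin n), ‖p‖ = 1 → ∀ m : ℕ, ∀ δ : ℝ, 0 < δ →
      ∃ j, M j = m + 2 ∧ ‖q j - p‖ < δ := by
    intro p hp m δ hδ
    have hp' : p ∈ sphere (0 : EuclideanSpace ℂ (Fin n)) 1 := mem_sphere_zero_iff_norm.2 hp
    obtain ⟨l, hl⟩ := (TopologicalSpace.denseRange_denseSeq
      (sphere (0 : EuclideanSpace ℂ (Fin n)) 1)).exists_dist_lt ⟨p, hp'⟩ hδ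
    refine ⟨Nat.pair m l, ?_, ?_⟩
    · simp only [M, Nat.unpair_pair]
    · simp only [q, Nat.unpair_pair]
      rw [dist_comm, Subtype.dist_eq, dist_eq_norm] at hl
      exact hl
  obtain ⟨h1, h2, h3, h4⟩ := ser_smooth hq (summable_weights hM hk0 hk2)
  refine ⟨ser M k q, ⟨h4, h3, fun m => ⟨_, h2 m, fun z hz => (h1 m z hz).symm⟩⟩, ?_⟩
  intro a b hb hT τ hτ
  rintro ⟨c, R, h, hτR, hh, heq⟩
  exact no_extension hq hM hk0 hk1 hk2 hdense hb hT hτ hτR hh heq

end Pool.Agent.Results.MP_ca9574_an.NaturalBoundaryDiscs
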